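import Pool.Agent.H92.S2.LUT2
import Pool.Agent.H45.SFU.NUN

/-!
# MP_70ba79_ag, THEOREM S, part 2, row NUN2: no sections of negative twist
-/

set_option autoImplicit false

namespace Pool.Agent.H63.SFV

open MvPolynomial
open Pool.Agent.H84.SM (dp cr dt)
open Pool.Agent.H3.SF Pool.Agent.H3.S2 Pool.Agent.H92.SF Pool.Agent.H92.S2

theorem pf_NUN2 (hNSA : T_NSA) : T_NUN2 := by
  intro δ hδ
  refine ⟨2000, fun j0 m hm => ⟨3, fun n hn => ?_⟩⟩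
  obtain ⟨h1, h2, -⟩ := hNSA n
  rw [Pool.Agent.H45.SFU.ss_zero]
  have h1' : 27 * (nA n : ℤ) ≤ 2 * ((n : ℤ) + 3) ^ 3 := by exact_mod_cast h1
  have h2' : 6 * (nC n : ℤ) ≤ ((n : ℤ) + 3) ^ 2 := by exact_mod_cast h2
  have hn' : (3 : ℤ) ≤ n := by exact_mod_cast hn
  have hm'' : 2000 * ((j0 : ℤ) + 1) ≤ m := by exact_mod_cast hm
  have hm' : 1000 * (2 * (j0 : ℤ) + 1) ≤ m := by linarith
  have hj : (0 : ℤ) ≤ j0 := Int.natCast_nonneg _
  have hδ' : (0 : ℤ) ≤ δ := Int.natCast_nonneg _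
  have hm0 : (0 : ℤ) ≤ m := Int.natCast_nonneg _
  set N : ℤ := (n : ℤ) with hN
  set M : ℤ := (m : ℤ) with hM
  set J : ℤ := 2 * (j0 : ℤ) + 1 with hJ
  have hJ1 : 1 ≤ J := by linarith
  have e1 : (N + 3) ^ 3 ≤ 8 * N ^ 3 := by
    have : (N + 3) ^ 3 ≤ (2 * N) ^ 3 := pow_le_pow_left₀ (by linarith) (by linarith) 3
    linarith [mul_pow (2 : ℤ) N 3]
  have e2 : (N + 3) ^ 2 ≤ 4 * N ^ 2 := by
    have : (N + 3) ^ 2 ≤ (2 * N) ^ 2 := pow_le_pow_left₀ (by linarith) (by linarith) 2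
    linarith [mul_pow (2 : ℤ) N 2]
  have e3 : 2 * N * j0 + 1 ≤ N * J := by
    rw [hJ]
    linarith
  have e3' : 2 * (j0 : ℤ) * N + 1 ≤ N * J := by
    rw [hJ]
    linarith
  have f1 : 648 * (nA n : ℤ) ≤ 384 * N ^ 3 := by linarith
  have f2 : 648 * (nC n : ℤ) ≤ 432 * N ^ 2 := by linarith
  have g0 : (0 : ℤ) ≤ nC n := Int.natCast_nonneg _
  have gA : (0 : ℤ) ≤ nA n := Int.natCast_nonneg _
  have g1 : 648 * (M * (nA n : ℤ) + (2 * j0 * N + 1) * (nC n : ℤ)) ≤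
      384 * M * N ^ 3 + 432 * J * N ^ 3 := by
    have a1 : M * (648 * (nA n : ℤ)) ≤ M * (384 * N ^ 3) := mul_le_mul_of_nonneg_left f1 hm0
    have a2 : (2 * (j0 : ℤ) * N + 1) * (648 * (nC n : ℤ)) ≤ (N * J) * (432 * N ^ 2) :=
      mul_le_mul e3' f2 (by linarith) (by positivity)
    linarith
  have g2 : (0 : ℤ) ≤ 648 * (M * (nA n : ℤ) + (2 * j0 * N + 1) * (nC n : ℤ)) := by positivity
  have g3 : (2 * N * j0 + 1) * (648 * (M * (nA n : ℤ) + (2 * j0 * N + 1) * (nC n : ℤ))) ≤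
      (N * J) * (384 * M * N ^ 3 + 432 * J * N ^ 3) :=
    mul_le_mul e3 g1 g2 (by positivity)
  have g4 : 384 * J * M + 432 * J ^ 2 ≤ M ^ 2 := by
    have b1 : 1000 * J * M ≤ M * M := mul_le_mul_of_nonneg_right hm' hm0
    have b2 : J ≤ M := by linarith
    have b3 : J * J ≤ J * M := mul_le_mul_of_nonneg_left b2 (by linarith)
    nlinarith
  have g5 : (N * J) * (384 * M * N ^ 3 + 432 * J * N ^ 3) ≤ M ^ 2 * N ^ 4 := by
    have : (N * J) * (384 * M * N ^ 3 + 432 * J * N ^ 3) =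
      (384 * J * M + 432 * J ^ 2) * N ^ 4 := by ring
    rw [this]
    exact mul_le_mul_of_nonneg_right g4 (by positivity)
  have g6 := mul_le_mul_of_nonneg_left (g3.trans g5) hδ'
  calc _ = (δ : ℤ) * ((2 * N * j0 + 1) *
        (648 * (M * (nA n : ℤ) + (2 * j0 * N + 1) * (nC n : ℤ)))) := by ring
    _ ≤ _ := g6
    _ = _ := by ring

end Pool.Agent.H63.SFV
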